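import Pool.Agent.H50.Eul5

namespace Pool.Agent.Results.MP_492a05_co.No

open Module Submodule Pool.Agent.H50.Eul

section
variable {E : Type} [AddCommGroup E] [Module ℝ E]

/-- `F` is a face of `P`: the set where a valid linear inequality `c x ≤ c0` is tight
(this includes the empty face and `P` itself). -/
def IsFace (P F : Set E) : Prop :=
  ∃ (c : E →ₗ[ℝ] ℝ) (c0 : ℝ), (∀ x ∈ P, c x ≤ c0) ∧ F = {x | x ∈ P ∧ c x = c0}

/-- The face lattice `L(P)`, ordered by inclusion. -/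
abbrev Face (P : Set E) := {F : Set E // IsFace P F}

open Classical in
/-- `dim F + 1`, with the empty set of dimension `-1`. -/
noncomputable def rank (F : Set E) : ℕ :=
  if F = ∅ then 0 else finrank ℝ (vectorSpan ℝ F) + 1

/-- The rank function of the face lattice. -/
noncomputable def frank (P : Set E) (F : Face P) : ℕ := rank F.1
end

/-- `j` identifies the elements of `L` of rank other than `k` with the elements of `Q` of rank
other than `k`, preserving rank and the order relations (its values at rank `k` play no role). -/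
def AgreesOff {L Q : Type} [PartialOrder L] [PartialOrder Q] (ρ : L → ℕ) (σ : Q → ℕ) (k : ℕ)
    (j : L → Q) : Prop :=
  (∀ x, ρ x ≠ k → σ (j x) = ρ x) ∧ (∀ x y, ρ x ≠ k → ρ y ≠ k → (j x ≤ j y ↔ x ≤ y)) ∧
    ∀ q, σ q ≠ k → ∃ x, ρ x ≠ k ∧ j x = q

/-- Some order isomorphism `L ≃ Q` restricts to `j` on the elements of rank other than `k`. -/
def ExtendsToIso {L Q : Type} [PartialOrder L] [PartialOrder Q] (ρ : L → ℕ) (k : ℕ)
    (j : L → Q) : Prop :=
  ∃ Φ : L ≃o Q, ∀ x, ρ x ≠ k → Φ x = j x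

/-- A finite bounded poset with rank function `σ` is Eulerian. -/
def Eulerian {Q : Type} [PartialOrder Q] [BoundedOrder Q] (σ : Q → ℕ) : Prop :=
  Finite Q ∧ σ ⊥ = 0 ∧ (∀ x y : Q, x ⋖ y → σ y = σ x + 1) ∧
    ∀ x y : Q, x < y → {z | x ≤ z ∧ z ≤ y ∧ Even (σ z)}.ncard =
      {z | x ≤ z ∧ z ≤ y ∧ Odd (σ z)}.ncard

section
variable {E : Type} [AddCommGroup E] [Module ℝ E]

def hom (x : E) : ℝ × E := (1, x)

lemma cv (V : Finset E) (φ : ℝ × E →ₗ[ℝ] ℝ) (h : ∀ w ∈ hom '' (V : Set E), 0 ≤ φ w) {x : E}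
    (hx : x ∈ convexHull ℝ (V : Set E)) :
    0 ≤ φ (hom x) ∧ (φ (hom x) = 0 → hom x ∈ span ℝ {w | w ∈ hom '' (V : Set E) ∧ φ w = 0}) := by
  obtain ⟨w, w0, w1, w2⟩ := Finset.mem_convexHull'.1 hx
  have e : hom x = ∑ y ∈ V, w y • hom y := by
    ext
    · simp [hom, Prod.fst_sum, w1]
    · simp [hom, Prod.snd_sum, w2]
  have p : ∀ y ∈ V, 0 ≤ w y * φ (hom y) := fun y hy => mul_nonneg (w0 y hy) (h _ ⟨y, hy, rfl⟩)
  have e2 : φ (hom x) = ∑ y ∈ V, w y * φ (hom y) := by rw [e]; simp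
  refine ⟨e2 ▸ Finset.sum_nonneg p, fun h0 => ?_⟩
  rw [e2, Finset.sum_eq_zero_iff_of_nonneg p] at h0
  rw [e]
  refine sum_mem fun y hy => ?_
  rcases mul_eq_zero.1 (h0 y hy) with a | a
  · simp [a]
  · exact smul_mem _ _ (subset_span ⟨⟨y, hy, rfl⟩, a⟩)

lemma face_iff (V : Finset E) (F : Set E) : IsFace (convexHull ℝ (V : Set E)) F ↔
    ∃ φ : ℝ × E →ₗ[ℝ] ℝ, (∀ w ∈ hom '' (V : Set E), 0 ≤ φ w) ∧
      F = {x | x ∈ convexHull ℝ (V : Set E) ∧ φ (hom x) = 0} := by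
  constructor
  · rintro ⟨c, c0, h1, h2⟩
    refine ⟨c0 • LinearMap.fst ℝ ℝ E - c ∘ₗ LinearMap.snd ℝ ℝ E, ?_, ?_⟩
    · rintro _ ⟨v, hv, rfl⟩
      simpa [hom] using h1 v (subset_convexHull ℝ _ hv)
    · rw [h2]; ext x
      refine and_congr_right fun _ => ?_
      simp only [hom, LinearMap.sub_apply, LinearMap.smul_apply, LinearMap.fst_apply,
        LinearMap.comp_apply, LinearMap.snd_apply, smul_eq_mul]
      exact ⟨fun a => by linarith, fun a => by linarith⟩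
  · rintro ⟨φ, h1, h2⟩
    have e : ∀ x, φ (hom x) = φ (1, 0) + φ (0, x) := fun x => by
      rw [← map_add]; simp [hom]
    refine ⟨-(φ ∘ₗ LinearMap.inr ℝ ℝ E), φ (1, 0), fun x hx => ?_, ?_⟩
    · have := (cv V φ h1 hx).1
      rw [e] at this
      simp only [LinearMap.neg_apply, LinearMap.comp_apply, LinearMap.inr_apply]
      linarith
    · rw [h2]; ext x
      simp only [Set.mem_setOf_eq, e, LinearMap.neg_apply, LinearMap.comp_apply,
        LinearMap.inr_apply]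
      exact and_congr_right fun _ => ⟨fun a => by linarith, fun a => by linarith⟩

lemma tr_eq (V : Finset E) (φ : ℝ × E →ₗ[ℝ] ℝ) :
    {w | w ∈ hom '' (V : Set E) ∧ w.2 ∈ {x | x ∈ convexHull ℝ (V : Set E) ∧ φ (hom x) = 0}} =
      {w | w ∈ hom '' (V : Set E) ∧ φ w = 0} := by
  ext w
  refine and_congr_right ?_
  rintro ⟨v, hv, rfl⟩
  exact ⟨fun a => a.2, fun a => ⟨subset_convexHull ℝ _ hv, a⟩⟩

def tr (V : Finset E) (F : Face (convexHull ℝ (V : Set E))) : CF (hom '' (V : Set E)) :=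
  ⟨{w | w ∈ hom '' (V : Set E) ∧ w.2 ∈ F.1}, by
    obtain ⟨φ, h1, h2⟩ := (face_iff V F.1).1 F.2
    exact ⟨φ, h1, by rw [h2, tr_eq]⟩⟩

lemma tr_span (V : Finset E) (F : Face (convexHull ℝ (V : Set E))) :
    span ℝ (tr V F).1 = span ℝ (hom '' F.1) := by
  refine le_antisymm (span_mono ?_) (span_le.2 ?_)
  · rintro _ ⟨⟨v, -, rfl⟩, a⟩
    exact ⟨v, a, rfl⟩
  · obtain ⟨φ, h1, h2⟩ := (face_iff V F.1).1 F.2
    rintro _ ⟨x, hx, rfl⟩
    have : (tr V F).1 = {w | w ∈ hom '' (V : Set E) ∧ φ w = 0} := by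
      rw [← tr_eq, ← h2]; rfl
    rw [this]
    rw [h2] at hx
    exact (cv V φ h1 hx.1).2 hx.2

lemma tr_le (V : Finset E) (F G : Face (convexHull ℝ (V : Set E))) : tr V F ≤ tr V G ↔ F ≤ G := by
  refine ⟨fun h x hx => ?_, fun h w hw => ⟨hw.1, h hw.2⟩⟩
  obtain ⟨φ, h1, h2⟩ := (face_iff V G.1).1 G.2
  obtain ⟨ψ, -, h3⟩ := (face_iff V F.1).1 F.2
  have e : (tr V G).1 = {w | w ∈ hom '' (V : Set E) ∧ φ w = 0} := by
    rw [← tr_eq, ← h2]; rfl
  have : hom x ∈ span ℝ (tr V F).1 := by rw [tr_span]; exact subset_span ⟨x, hx, rfl⟩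
  rw [h2]
  exact ⟨(h3 ▸ hx : x ∈ {x | x ∈ convexHull ℝ (V : Set E) ∧ ψ (hom x) = 0}).1,
    van (fun v hv => (e ▸ h hv : v ∈ {w | w ∈ hom '' (V : Set E) ∧ φ w = 0}).2) this⟩

lemma tr_surj (V : Finset E) : Function.Surjective (tr V) := by
  rintro ⟨G, φ, h1, h2⟩
  exact ⟨⟨_, (face_iff V _).2 ⟨φ, h1, rfl⟩⟩, Subtype.ext ((tr_eq V φ).trans h2.symm)⟩

lemma rank_eq [FiniteDimensional ℝ E] (F : Set E) : finrank ℝ (span ℝ (hom '' F)) = rank F := by
  unfold rank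
  split_ifs with h
  · subst h; simp
  obtain ⟨x0, hx0⟩ := Set.nonempty_iff_ne_empty.2 h
  have e : span ℝ (hom '' F) =
      (vectorSpan ℝ F).map (LinearMap.inr ℝ ℝ E) ⊔ span ℝ {hom x0} := by
    refine le_antisymm (span_le.2 ?_) (sup_le ?_ (span_mono (by simpa using ⟨x0, hx0, rfl⟩)))
    · rintro _ ⟨x, hx, rfl⟩
      have : hom x = LinearMap.inr ℝ ℝ E (x -ᵥ x0) + hom x0 := by simp [hom]
      rw [this]
      exact add_mem_sup (mem_map_of_mem (vsub_mem_vectorSpan ℝ hx hx0)) (subset_span rfl)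
    · rw [vectorSpan_def, map_span, span_le]
      rintro _ ⟨_, ⟨x, hx, y, hy, rfl⟩, rfl⟩
      have : LinearMap.inr ℝ ℝ E (x -ᵥ y) = hom x - hom y := by simp [hom]
      simp only [this]
      exact sub_mem (subset_span ⟨x, hx, rfl⟩) (subset_span ⟨y, hy, rfl⟩)
  rw [e, finrank_sup_span_singleton,
    ← (equivMapOfInjective _ LinearMap.inr_injective (vectorSpan ℝ F)).finrank_eq]
  rintro ⟨v, -, hv⟩
  simpa [hom] using congrArg Prod.fst hv
end

theorem result {E : Type} [AddCommGroup E] [Module ℝ E] [FiniteDimensional ℝ E] (V : Finset E)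
    (P : Set E) (hP : P = convexHull ℝ (V : Set E)) (d r : ℕ)
    (hd : rank P = d + 1) (hr1 : 1 ≤ r) (hr2 : r + 2 ≤ d)
    (Q : Type) [PartialOrder Q] [BoundedOrder Q] (σ : Q → ℕ) (hQ : Eulerian σ)
    (j : Face P → Q) (hj : AgreesOff (frank P) σ (r + 1) j) :
    ExtendsToIso (frank P) (r + 1) j := by
  classical
  subst hP
  obtain ⟨fQ, q0, qc, qe⟩ := hQ
  obtain ⟨j1, j2, j3⟩ := hj
  unfold frank at j1 j2 j3
  have := Fintype.ofFinite Q
  have hV : (hom '' (V : Set E)).Finite := V.finite_toSet.image _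
  let e : Face (convexHull ℝ (V : Set E)) ≃o CF (hom '' (V : Set E)) :=
    RelIso.ofSurjective (OrderEmbedding.ofMapLEIff (tr V) (tr_le V)) (tr_surj V)
  have er : ∀ F, rk (e F) = rank F.1 := fun F => by
    rw [← rank_eq, ← tr_span]; rfl
  have er' : ∀ G, rank (e.symm G).1 = rk G := fun G => by rw [← er]; simp
  have gQ : GP σ := gp_of_cov qc
  have hE : EulQ σ := by
    intro x y hxy
    have := qe x y hxy
    rw [← Set.ncard_coe_finset, ← Set.ncard_coe_finset]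
    convert this using 2 <;> ext z <;> simp [and_assoc]
  have s : Setup (rk (V := hom '' (V : Set E))) σ (r + 1) (fun G => j (e.symm G)) := by
    refine ⟨gp_cf hV, dia_cf hV, conn_cf hV, fun a b => ?_, ?_, ?_, by omega, gQ, dia_of gQ hE,
      ⟨⊥, q0, fun _ => bot_le⟩, ⟨⊤, fun _ => le_top⟩, fun x hx => ?_, fun x y hx hy => ?_,
      fun q hq => ?_⟩
    · obtain ⟨c, hc⟩ := meet_face hV a b
      exact ⟨c, fun z => by
        change z.1 ⊆ c.1 ↔ z.1 ⊆ a.1 ∧ z.1 ⊆ b.1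
        rw [hc, Set.subset_inter_iff]⟩
    · refine ⟨e ⟨∅, 0, 1, by simp, by simp⟩, by rw [er]; simp [rank], fun x => ?_⟩
      rw [← e.apply_symm_apply x, e.le_iff_le]
      exact Set.empty_subset _
    · refine ⟨e ⟨convexHull ℝ (V : Set E), 0, 0, by simp, by ext; simp⟩,
        by rw [er]; simp only; omega, fun x => ?_⟩
      rw [← e.apply_symm_apply x, e.le_iff_le]
      obtain ⟨c, c0, -, h⟩ := (e.symm x).2
      intro v hv
      rw [h] at hv
      exact hv.1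
    · rw [j1 _ (by rwa [er']), er']
    · rw [j2 _ _ (by rwa [er']) (by rwa [er']), e.symm.le_iff_le]
    · obtain ⟨x, a, b⟩ := j3 q hq
      exact ⟨e x, by rwa [er], by simpa using b⟩
  obtain ⟨Φ, hΦ⟩ := s.iso hE
  refine ⟨e.trans Φ, fun F h => ?_⟩
  rw [OrderIso.trans_apply, hΦ _ (by rwa [er])]
  simp

end Pool.Agent.Results.MP_492a05_co.No
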